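import Pool.Agent.H53.CF.Main
import Pool.Agent.H31.GS.Basic

/-!
# helper53 GL: from fans with `∑ y i ^ 2 = 0` to graded systems (definitions)

Module valued Fock spaces: `Finset I → M` with creation, annihilation and the extension `hatM` of
operators on `M` which anticommutes with them.
-/

namespace Pool.Agent.H53.GL

open Finset Pool.Agent.H53.CF

section Fock

variable {I : Type*} [Fintype I] [LinearOrder I] {K : Type*} [Field K]
variable {M : Type*} [AddCommGroup M] [Module K M]

/-- creation -/
def epsM (a : I → K) : (Finset I → M) →ₗ[K] (Finset I → M) where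
  toFun ω := fun S => ∑ j ∈ S, ((sg j S : K) * a j) • ω (S.erase j)
  map_add' x y := by
    funext S
    simp only [Pi.add_apply, smul_add, Finset.sum_add_distrib]
  map_smul' c x := by
    funext S
    simp only [Pi.smul_apply, RingHom.id_apply, Finset.smul_sum]
    exact Finset.sum_congr rfl (fun j _ => smul_comm _ _ _)

/-- annihilation -/
def iotM (a : I → K) : (Finset I → M) →ₗ[K] (Finset I → M) where
  toFun ω := fun S => ∑ j ∈ Sᶜ, ((sg j S : K) * a j) • ω (insert j S)
  map_add' x y := by
    funext S
    simp only [Pi.add_apply, smul_add, Finset.sum_add_distrib]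
  map_smul' c x := by
    funext S
    simp only [Pi.smul_apply, RingHom.id_apply, Finset.smul_sum]
    exact Finset.sum_congr rfl (fun j _ => smul_comm _ _ _)

/-- the extension of an operator on `M`, with the sign of the degree -/
def hatM (I : Type*) [Fintype I] [LinearOrder I] (A : M →ₗ[K] M) :
    (Finset I → M) →ₗ[K] (Finset I → M) where
  toFun ω := fun S => ((-1 : K) ^ S.card) • A (ω S)
  map_add' x y := by
    funext S
    simp only [Pi.add_apply, map_add, smul_add]
  map_smul' c x := by
    funext S
    simp only [Pi.smul_apply, map_smul, RingHom.id_apply]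
    exact smul_comm _ _ _

end Fock

section Ops

variable {V : Type*} [Fintype V] [LinearOrder V] {K : Type*} [Field K]
variable {M : Type*} [AddCommGroup M] [Module K M] {d : ℕ}

/-- the operators on `Finset (Fin d) → M` -/
def A2 (A : V → M →ₗ[K] M) (u p : V → Fin d → K) (v : V) :
    (Finset (Fin d) → M) →ₗ[K] (Finset (Fin d) → M) :=
  hatM (Fin d) (A v) + epsM (u v) - iotM (fun j => 2 * p v j)

/-- the operators on `Finset V → M` -/
def A3 (A : V → M →ₗ[K] M) (v : V) : (Finset V → M) →ₗ[K] (Finset V → M) :=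
  hatM V (A v) + epsM (Pi.single v 1)

/-- `A v` and `A w` anticommute for `v = w` and for edges. -/
def Anti (Δ : Finset V → Prop) (A : V → M →ₗ[K] M) : Prop :=
  ∀ v w, (v = w ∨ Δ {v, w}) → ∀ x, A v (A w x) + A w (A v x) = 0

/-- The Dirac complex on the functions on the monomials of `Δ` is exact. -/
def SmEx (Δ : Finset V → Prop) (A : V → M →ₗ[K] M) : Prop :=
  ∀ i, ∀ f ∈ Sm K M Δ ∅ i, Dop K M A f = 0 → ∃ g ∈ Sm K M Δ ∅ (i + 1), Dop K M A g = f

open Classical in
/-- Multiplication by `∑ v, A v x_v` in the face ring (functions = coefficient functions). -/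
noncomputable def Mop (Δ : Finset V → Prop) (A : V → M →ₗ[K] M) (f : (V → ℕ) → M) :
    (V → ℕ) → M :=
  fun α => if Δ (supp α) then ∑ v, if α v ≠ 0 then A v (f (α - e1 v)) else 0 else 0

/-- The complex of the face ring is exact. -/
def MuEx (Δ : Finset V → Prop) (A : V → M →ₗ[K] M) : Prop :=
  (∀ f ∈ Sm K M Δ ∅ 0, Mop Δ A f = 0 → f = 0) ∧
  ∀ i, ∀ f ∈ Sm K M Δ ∅ (i + 1), Mop Δ A f = 0 → ∃ g ∈ Sm K M Δ ∅ i, Mop Δ A g = f

end Ops

end Pool.Agent.H53.GL
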