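import Pool.Agent.H53.GL.FockM

/-!
# helper53 GL module DUAL: the dual complex

`M` finite-dimensional, `M* = Module.Dual K M`, `A* v = (A v).dualMap`. For `Y : (V → ℕ) → M*` and
`f : (V → ℕ) → M` supported in degree `i` on the monomials of `Δ`: `⟨Y, f⟩ = ∑_α Y α (f α)` (a finite sum over
`piAntidiag univ i`), `⟨Mop Δ A* Z, f⟩ = ⟨Z, Dop A f⟩` for `f ∈ Sm i` (reindex `α = β + e_v`, `Δ (supp α)` holds
where `f α ≠ 0`).
* degree `0`: `Y ∈ Sm 0` (only `Y 0` can be nonzero) with `Mop Y = 0`: for `f ∈ Sm 0`: `Dop A f = 0`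
  (`Dop_Sm_zero`), so `f = Dop A g`, `⟨Y, f⟩ = ⟨Mop Y, g⟩ = 0` for all `f`, so `Y = 0` (if not `Δ ∅` also `Y = 0`).
* degree `i + 1`: `Mop Y = 0` implies `⟨Y, Dop A g⟩ = 0` for all `g ∈ Sm (i + 2)`, so by `SmEx`
  `⟨Y, ·⟩` vanishes on `ker (Dop A) ⊓ Sm (i + 1)`, so there is a functional `ψ` on all functions (or on
  `Sm i`) with `ψ (Dop A f) = ⟨Y, f⟩` for `f ∈ Sm (i + 1)`; `ψ = ⟨Z, ·⟩` on `Sm i`, with
  `Z α = ψ (Pi.single α ·)` for `α` of degree `i` with `Δ (supp α)`, else `0`. Then
  `⟨Mop Z, f⟩ = ⟨Y, f⟩` for all `f ∈ Sm (i + 1)`, so `Mop Z = Y` (evaluate at `Pi.single α x`).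
-/

namespace Pool.Agent.H53.GL

open Finset Pool.Agent.H53.CF

variable {V : Type*} [Fintype V] [LinearOrder V] {K : Type*} [Field K]
variable {M : Type*} [AddCommGroup M] [Module K M]

/-- the pairing in degree `i` -/
private def pd (i : ℕ) (Y : (V → ℕ) → Module.Dual K M) (f : (V → ℕ) → M) : K :=
  ∑ α ∈ Finset.piAntidiag (univ : Finset V) i, Y α (f α)

private theorem pd_adj {Δ : Finset V → Prop} (A : V → M →ₗ[K] M) (i : ℕ)
    (Z : (V → ℕ) → Module.Dual K M) (f : (V → ℕ) → M) (hf : f ∈ Sm K M Δ ∅ (i + 1)) :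
    pd (i + 1) (Mop Δ (fun v => (A v).dualMap) Z) f = pd i Z (Dop K M A f) := by
  have h1 : ∀ α : V → ℕ, Mop Δ (fun v => (A v).dualMap) Z α (f α)
      = ∑ v, if α v ≠ 0 then Z (α - e1 v) (A v (f α)) else 0 := by
    intro α
    by_cases hΔ : Δ (supp α)
    · rw [Mop, if_pos hΔ, LinearMap.sum_apply]
      apply Finset.sum_congr rfl
      intro v _
      split_ifs
      · rfl
      · rfl
    · have h0 : f α = 0 := by
        by_contra hne
        apply hΔ
        have := (hf α hne).2
        rwa [union_empty] at this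
      rw [h0, map_zero]
      symm
      apply Finset.sum_eq_zero
      intro v _
      simp
  have h2 : ∀ β : V → ℕ, Z β (Dop K M A f β) = ∑ v, Z β (A v (f (β + e1 v))) := by
    intro β
    change Z β (∑ v, A v (f (β + e1 v))) = _
    rw [map_sum]
  unfold pd
  simp only [h1, h2]
  rw [Finset.sum_comm]
  conv_rhs => rw [Finset.sum_comm]
  apply Finset.sum_congr rfl
  intro v _
  rw [sum_piAntidiag_shift v i (fun α => Z (α - e1 v) (A v (f α)))]
  apply Finset.sum_congr rfl
  intro β _
  have h3 : β + e1 v - e1 v = β := by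
    funext w
    simp
  simp only [h3]

private theorem pd_ext {Δ : Finset V → Prop} (i : ℕ) (Y Z : (V → ℕ) → Module.Dual K M)
    (hY : Y ∈ Sm K (Module.Dual K M) Δ ∅ i) (hZ : Z ∈ Sm K (Module.Dual K M) Δ ∅ i)
    (h : ∀ f ∈ Sm K M Δ ∅ i, pd i Y f = pd i Z f) : Y = Z := by
  classical
  funext α
  by_contra hne
  have h1 : ∑ v, α v = i ∧ Δ (supp α ∪ ∅) := by
    by_cases h0 : Y α = 0
    · refine hZ α (fun h2 => hne ?_)
      rw [h0, h2]
    · exact hY α h0
  apply hne
  ext x
  have hf : (Pi.single α x : (V → ℕ) → M) ∈ Sm K M Δ ∅ i := by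
    intro β hβ
    by_cases hβα : β = α
    · rw [hβα]
      exact h1
    · exact (hβ (by rw [Pi.single_eq_of_ne hβα])).elim
  have h2 : ∀ W : (V → ℕ) → Module.Dual K M, pd i W (Pi.single α x) = W α x := by
    intro W
    unfold pd
    rw [Finset.sum_eq_single α]
    · rw [Pi.single_eq_same]
    · intro β _ hβ
      rw [Pi.single_eq_of_ne hβ, map_zero]
    · intro hα
      exact absurd (by simp [Finset.mem_piAntidiag, h1.1]) hα
  have h3 := h _ hf
  rwa [h2, h2] at h3

private theorem Mop_mem {Δ : Finset V → Prop} (A : V → M →ₗ[K] M) (i : ℕ)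
    (f : (V → ℕ) → M) (hf : f ∈ Sm K M Δ ∅ i) : Mop Δ A f ∈ Sm K M Δ ∅ (i + 1) := by
  intro α hα
  rw [Mop] at hα
  split_ifs at hα with hΔ
  · refine ⟨?_, by rwa [union_empty]⟩
    obtain ⟨v, _, hv⟩ := Finset.exists_ne_zero_of_sum_ne_zero hα
    split_ifs at hv with hv0
    · have h1 : f (α - e1 v) ≠ 0 := fun h => hv (by rw [h, map_zero])
      have h2 := (hf _ h1).1
      have h3 : α - e1 v + e1 v = α := by
        funext w
        simp only [e1, Pi.add_apply, Pi.sub_apply]
        by_cases hw : w = v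
        · subst hw
          simp only [Pi.single_eq_same]
          omega
        · simp [Pi.single_eq_of_ne hw]
      rw [← h3, sum_add_e1, h2]
    · exact absurd rfl hv
  · exact absurd rfl hα

theorem muEx_dual [Module.Finite K M] {Δ : Finset V → Prop} (hc : IsCpx Δ)
    {A : V → M →ₗ[K] M} (hEx : SmEx Δ A) : MuEx Δ (fun v => (A v).dualMap) := by
  classical
  refine ⟨?_, ?_⟩
  · intro Y hY hMY
    refine pd_ext 0 Y 0 hY (Submodule.zero_mem _) ?_
    intro f hf
    obtain ⟨g, hg, rfl⟩ := hEx 0 f hf (Dop_Sm_zero A hf)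
    rw [← pd_adj A 0 Y g hg, hMY]
    simp [pd]
  · intro i Y hY hMY
    have hker : ∀ f ∈ Sm K M Δ ∅ (i + 1), Dop K M A f = 0 → pd (i + 1) Y f = 0 := by
      intro f hf hDf
      obtain ⟨g, hg, rfl⟩ := hEx (i + 1) f hf hDf
      rw [← pd_adj A (i + 1) Y g hg, hMY]
      simp [pd]
    let S : Submodule K ((V → ℕ) → M) := Sm K M Δ ∅ (i + 1)
    let D : S →ₗ[K] ((V → ℕ) → M) := (Dop K M A).domRestrict S
    let y : S →ₗ[K] K :=
      { toFun := fun f => pd (i + 1) Y f.1
        map_add' := fun f g => by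
          simp only [pd, Submodule.coe_add, Pi.add_apply, map_add, Finset.sum_add_distrib]
        map_smul' := fun c f => by
          simp only [pd, Submodule.coe_smul, Pi.smul_apply, map_smul, RingHom.id_apply,
            Finset.smul_sum] }
    have hy : y ∈ (LinearMap.ker D).dualAnnihilator := by
      rw [Submodule.mem_dualAnnihilator]
      intro f hf
      exact hker f.1 f.2 (LinearMap.mem_ker.mp hf)
    rw [← LinearMap.range_dualMap_eq_dualAnnihilator_ker] at hy
    obtain ⟨ψ, hψ⟩ := LinearMap.mem_range.mp hy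
    have hψ2 : ∀ f ∈ Sm K M Δ ∅ (i + 1), ψ (Dop K M A f) = pd (i + 1) Y f := by
      intro f hf
      have := LinearMap.congr_fun hψ (⟨f, hf⟩ : S)
      exact this
    let Z : (V → ℕ) → Module.Dual K M := fun α =>
      if ∑ v, α v = i ∧ Δ (supp α) then
        ψ ∘ₗ (LinearMap.single K (fun _ : V → ℕ => M) α) else 0
    have hZ : Z ∈ Sm K (Module.Dual K M) Δ ∅ i := by
      intro α hα
      simp only [Z] at hα
      split_ifs at hα with h1
      · exact ⟨h1.1, by rw [union_empty]; exact h1.2⟩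
      · exact absurd rfl hα
    have hZψ : ∀ h ∈ Sm K M Δ ∅ i, pd i Z h = ψ h := by
      intro h hh
      have h1 : h = ∑ α ∈ Finset.piAntidiag (univ : Finset V) i, Pi.single α (h α) := by
        funext β
        rw [Finset.sum_apply]
        by_cases hβ : ∑ v, β v = i
        · rw [Finset.sum_eq_single β]
          · rw [Pi.single_eq_same]
          · intro γ _ hγ
            rw [Pi.single_eq_of_ne hγ.symm]
          · intro h2
            exact absurd (by simp [Finset.mem_piAntidiag, hβ]) h2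
        · have h2 : h β = 0 := by
            by_contra hne
            exact hβ (hh β hne).1
          rw [h2]
          symm
          apply Finset.sum_eq_zero
          intro γ hγ
          have h3 : ∑ v, γ v = i := by
            simpa [Finset.mem_piAntidiag] using hγ
          rw [Pi.single_eq_of_ne]
          rintro rfl
          exact hβ h3
      conv_rhs => rw [h1, map_sum]
      unfold pd
      apply Finset.sum_congr rfl
      intro α hα
      have h3 : ∑ v, α v = i := by
        simpa [Finset.mem_piAntidiag] using hα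
      by_cases hΔ : Δ (supp α)
      · simp only [Z]
        rw [if_pos ⟨h3, hΔ⟩]
        rfl
      · have h4 : h α = 0 := by
          by_contra hne
          apply hΔ
          have := (hh α hne).2
          rwa [union_empty] at this
        rw [h4, map_zero, Pi.single_zero, map_zero]
    refine ⟨Z, hZ, ?_⟩
    refine pd_ext (i + 1) _ Y (Mop_mem _ i Z hZ) hY ?_
    intro f hf
    rw [pd_adj A i Z f hf, hZψ _ (Dop_mem_Sm hc A hf), hψ2 f hf]

end Pool.Agent.H53.GL
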