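import Pool.Agent.H53.GL.Defs

/-!
# helper53 GL: exactness below the middle for `Weights`, general rank (proved)
-/

namespace Pool.Agent.H53.GL

open Finset Pool.Agent.H53.CF

variable {V : Type*} [Fintype V] [LinearOrder V]

theorem ex_of_weights {d N : ℕ} {Δ : Finset V → Prop} {u : V → Fin d → ℝ} {y : Fin N → V → ℝ}
    {p : V → Fin d → ℝ} (hS : HomSphere ℝ Δ d) (hfan : CompleteFan Δ u)
    (hW : Weights Δ u y p) :
    ∀ τ, Δ τ → EX Δ u (fun v => gam (fun i => y i v)) τ := by
  have hu : Lsop ℝ Δ u := lsop_of_fan hS.cpx hfan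
  obtain ⟨F, hF, hFpos⟩ := fund_pos hS hfan
  have hD := isDirac_cliff (N := N) hS.cpx hW.sq
  exact core hS hu hD (fun τ hτ hEX => by
    by_cases hodd : Odd (d - τ.card)
    · obtain ⟨c, q, h1, h2⟩ := hW.pos τ hτ hodd
      refine os_real hS hfan hF hFpos hD (fun x hx => stdB_pos x hx) hτ hEX
        (gam c) (fun v => 2 * ∑ i, c i * y i v) (fun v x => ?_) (fun j => 2 * q j) ?_ ?_
      · have := gam_gam (fun i => y i v) c x
        show gam (fun i => y i v) (gam c x) + gam c (gam (fun i => y i v) x) = _
        rw [this]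
        congr 1
        congr 1
        exact Finset.sum_congr rfl (fun i _ => mul_comm _ _)
      · intro v hv
        have := h1 v hv
        simp only [mul_assoc, ← Finset.mul_sum, this]
      · intro w hw hΔw
        have := h2 w hw hΔw
        simp only [mul_assoc, ← Finset.mul_sum]
        linarith
    · intro k hk
      exact absurd ⟨k, by omega⟩ hodd)

end Pool.Agent.H53.GL
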