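import Pool.Agent.H53.GL.Defs

/-!
# helper53 GL module FOCKM: relations of the module valued operators

Everything follows from the scalar relations of `H53/CF/Fock.lean`: for a linear functional `φ` on `M`,
`φ ∘ epsM a ω = eps K a (φ ∘ ω)`, `φ ∘ iotM a ω = iot K a (φ ∘ ω)`, and linear functionals separate the
points of a vector space. The anticommutation with `hatM` is a direct computation:
`(-1)^|S| A (ω (S.erase j))` against `(-1)^(|S| - 1)`.
-/

namespace Pool.Agent.H53.GL

open Finset Pool.Agent.H53.CF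

section

variable {I : Type*} [Fintype I] [LinearOrder I] {K : Type*} [Field K]
variable {M : Type*} [AddCommGroup M] [Module K M]

omit [Fintype I] in
theorem epsM_apply_fm (a : I → K) (ω : Finset I → M) (S : Finset I) :
    epsM a ω S = ∑ j ∈ S, ((sg j S : K) * a j) • ω (S.erase j) := rfl

theorem iotM_apply_fm (a : I → K) (ω : Finset I → M) (S : Finset I) :
    iotM a ω S = ∑ j ∈ Sᶜ, ((sg j S : K) * a j) • ω (insert j S) := rfl

theorem hatM_apply_fm (A : M →ₗ[K] M) (ω : Finset I → M) (S : Finset I) :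
    hatM I A ω S = ((-1 : K) ^ S.card) • A (ω S) := rfl

theorem push_eps_fm (φ : M →ₗ[K] K) (a : I → K) (ω : Finset I → M) :
    (fun S => φ (epsM a ω S)) = eps K a (fun S => φ (ω S)) := by
  funext S
  rw [epsM_apply_fm, map_sum, eps_apply_fock]
  refine Finset.sum_congr rfl (fun j _ => ?_)
  rw [map_smul, smul_eq_mul]

theorem push_iot_fm (φ : M →ₗ[K] K) (a : I → K) (ω : Finset I → M) :
    (fun S => φ (iotM a ω S)) = iot K a (fun S => φ (ω S)) := by
  funext S
  rw [iotM_apply_fm, map_sum, iot_apply_fock]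
  refine Finset.sum_congr rfl (fun j _ => ?_)
  rw [map_smul, smul_eq_mul]

omit [Fintype I] [LinearOrder I] in
theorem ext_fm {x y : Finset I → M}
    (h : ∀ φ : M →ₗ[K] K, (fun S => φ (x S)) = fun S => φ (y S)) : x = y := by
  funext S
  rw [← sub_eq_zero, ← Module.forall_dual_apply_eq_zero_iff K]
  intro φ
  rw [map_sub, sub_eq_zero]
  exact congrFun (h φ) S

theorem epsM_epsM (a b : I → K) (ω : Finset I → M) :
    epsM a (epsM b ω) + epsM b (epsM a ω) = 0 := by
  refine ext_fm (K := K) (fun φ => ?_)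
  have h : (fun S => φ ((epsM a (epsM b ω) + epsM b (epsM a ω)) S)) =
      eps K a (eps K b (fun S => φ (ω S))) + eps K b (eps K a (fun S => φ (ω S))) := by
    rw [← push_eps_fm φ b, ← push_eps_fm φ a, ← push_eps_fm φ a, ← push_eps_fm φ b]
    funext S
    simp only [Pi.add_apply, map_add]
  rw [h, eps_eps, neg_add_cancel]
  funext S
  simp

theorem epsM_sq (a : I → K) (ω : Finset I → M) : epsM a (epsM a ω) = 0 := by
  refine ext_fm (K := K) (fun φ => ?_)
  rw [push_eps_fm φ a, push_eps_fm φ a, eps_sq]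
  funext S
  simp

theorem iotM_iotM (a b : I → K) (ω : Finset I → M) :
    iotM a (iotM b ω) + iotM b (iotM a ω) = 0 := by
  refine ext_fm (K := K) (fun φ => ?_)
  have h : (fun S => φ ((iotM a (iotM b ω) + iotM b (iotM a ω)) S)) =
      iot K a (iot K b (fun S => φ (ω S))) + iot K b (iot K a (fun S => φ (ω S))) := by
    rw [← push_iot_fm φ b, ← push_iot_fm φ a, ← push_iot_fm φ a, ← push_iot_fm φ b]
    funext S
    simp only [Pi.add_apply, map_add]
  rw [h, iot_iot, neg_add_cancel]
  funext S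
  simp

theorem iotM_sq (a : I → K) (ω : Finset I → M) : iotM a (iotM a ω) = 0 := by
  refine ext_fm (K := K) (fun φ => ?_)
  rw [push_iot_fm φ a, push_iot_fm φ a, iot_sq]
  funext S
  simp

theorem iotM_epsM (m a : I → K) (ω : Finset I → M) :
    iotM m (epsM a ω) + epsM a (iotM m ω) = (∑ j, m j * a j) • ω := by
  refine ext_fm (K := K) (fun φ => ?_)
  have h : (fun S => φ ((iotM m (epsM a ω) + epsM a (iotM m ω)) S)) =
      iot K m (eps K a (fun S => φ (ω S))) + eps K a (iot K m (fun S => φ (ω S))) := by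
    rw [← push_eps_fm φ a, ← push_iot_fm φ m, ← push_iot_fm φ m, ← push_eps_fm φ a]
    funext S
    simp only [Pi.add_apply, map_add]
  rw [h, iot_eps]
  funext S
  simp only [Pi.smul_apply, smul_eq_mul, map_smul]

theorem hatM_epsM (A : M →ₗ[K] M) (a : I → K) (ω : Finset I → M) :
    hatM I A (epsM a ω) + epsM a (hatM I A ω) = 0 := by
  funext S
  rw [Pi.add_apply, hatM_apply_fm, epsM_apply_fm, epsM_apply_fm, map_sum, Finset.smul_sum,
    ← Finset.sum_add_distrib, Pi.zero_apply]
  refine Finset.sum_eq_zero (fun j hj => ?_)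
  have hc : S.card = (S.erase j).card + 1 := by
    rw [card_erase_of_mem hj]
    have := card_pos.2 ⟨j, hj⟩
    omega
  rw [hatM_apply_fm, map_smul, smul_smul, smul_smul, ← add_smul, hc, pow_succ]
  have : (-1 : K) ^ (S.erase j).card * -1 * ((sg j S : K) * a j) +
      (sg j S : K) * a j * (-1) ^ (S.erase j).card = 0 := by ring
  rw [this, zero_smul]

theorem hatM_iotM (A : M →ₗ[K] M) (a : I → K) (ω : Finset I → M) :
    hatM I A (iotM a ω) + iotM a (hatM I A ω) = 0 := by
  funext S
  rw [Pi.add_apply, hatM_apply_fm, iotM_apply_fm, iotM_apply_fm, map_sum, Finset.smul_sum,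
    ← Finset.sum_add_distrib, Pi.zero_apply]
  refine Finset.sum_eq_zero (fun j hj => ?_)
  have hc : (insert j S).card = S.card + 1 := card_insert_of_notMem (mem_compl.1 hj)
  rw [hatM_apply_fm, map_smul, smul_smul, smul_smul, ← add_smul, hc, pow_succ]
  have : (-1 : K) ^ S.card * ((sg j S : K) * a j) +
      (sg j S : K) * a j * ((-1) ^ S.card * -1) = 0 := by ring
  rw [this, zero_smul]

theorem hatM_hatM (A B : M →ₗ[K] M) (ω : Finset I → M) (S : Finset I) :
    hatM I A (hatM I B ω) S = A (B (ω S)) := by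
  rw [hatM_apply_fm, hatM_apply_fm, map_smul, smul_smul, ← pow_add,
    Even.neg_one_pow ⟨S.card, rfl⟩, one_smul]

end

variable {V : Type*} [Fintype V] [LinearOrder V] {K : Type*} [Field K]
variable {M : Type*} [AddCommGroup M] [Module K M] {d : ℕ}

/-- If the anticommutators of the `A v` are `2 (⟨u v, p w⟩ + ⟨p v, u w⟩)` for `v = w` and for edges, the
operators `A2` anticommute. -/
theorem anti_A2 {Δ : Finset V → Prop} {A : V → M →ₗ[K] M} {u p : V → Fin d → K}
    (hA : ∀ v w, (v = w ∨ Δ {v, w}) → ∀ x, A v (A w x) + A w (A v x) =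
      (2 * ∑ j, (u v j * p w j + p v j * u w j)) • x) : Anti Δ (A2 A u p) := by
  intro v w hvw x
  have e1 : hatM (Fin d) (A v) (hatM (Fin d) (A w) x) + hatM (Fin d) (A w) (hatM (Fin d) (A v) x) =
      (2 * ∑ j, (u v j * p w j + p v j * u w j)) • x := by
    funext S
    rw [Pi.add_apply, hatM_hatM, hatM_hatM, hA v w hvw, Pi.smul_apply]
  have e2 := hatM_epsM (A v) (u w) x
  have e3 := hatM_epsM (A w) (u v) x
  have e4 := hatM_iotM (A v) (fun j => 2 * p w j) x
  have e5 := hatM_iotM (A w) (fun j => 2 * p v j) x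
  have e6 := epsM_epsM (u v) (u w) x
  have e7 := iotM_iotM (fun j => 2 * p v j) (fun j => 2 * p w j) x
  have e8 := iotM_epsM (fun j => 2 * p w j) (u v) x
  have e9 := iotM_epsM (fun j => 2 * p v j) (u w) x
  have e10 : (2 * ∑ j, (u v j * p w j + p v j * u w j)) • x =
      (∑ j, 2 * p w j * u v j) • x + (∑ j, 2 * p v j * u w j) • x := by
    rw [← add_smul]
    congr 1
    rw [Finset.mul_sum, ← Finset.sum_add_distrib]
    refine Finset.sum_congr rfl (fun j _ => ?_)
    ring
  simp only [A2, LinearMap.add_apply, LinearMap.sub_apply, map_add, map_sub]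
  rw [e10, ← e8, ← e9] at e1
  linear_combination (norm := module) e1 + e2 + e3 - e4 - e5 + e6 + e7

theorem anti_A3 {Δ : Finset V → Prop} {A : V → M →ₗ[K] M} (hA : Anti Δ A) : Anti Δ (A3 A) := by
  intro v w hvw x
  have e1 : hatM V (A v) (hatM V (A w) x) + hatM V (A w) (hatM V (A v) x) = 0 := by
    funext S
    rw [Pi.add_apply, hatM_hatM, hatM_hatM, hA v w hvw, Pi.zero_apply]
  have e2 := hatM_epsM (A v) (Pi.single w 1) x
  have e3 := hatM_epsM (A w) (Pi.single v 1) x
  have e6 := epsM_epsM (K := K) (Pi.single v 1) (Pi.single w 1) x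
  simp only [A3, LinearMap.add_apply, map_add]
  linear_combination (norm := module) e1 + e2 + e3 + e6

/-- `Dop ∘ Dop = 0` on the functions on the monomials of `Δ`. (Needs `2 ≠ 0` for the diagonal terms:
`A v (A v x) + A v (A v x) = 0`.) -/
theorem Dop_Dop (h2 : (2 : K) ≠ 0) {Δ : Finset V → Prop} (hc : IsCpx Δ) {A : V → M →ₗ[K] M}
    (hA : Anti Δ A) {i : ℕ} {f : (V → ℕ) → M} (hf : f ∈ Sm K M Δ ∅ i) :
    Dop K M A (Dop K M A f) = 0 := by
  funext β
  change ∑ v, A v (∑ w, A w (f (β + e1 v + e1 w))) = 0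
  have hT : ∀ v w, A v (A w (f (β + e1 v + e1 w))) + A w (A v (f (β + e1 w + e1 v))) = 0 := by
    intro v w
    have hsw : β + e1 w + e1 v = β + e1 v + e1 w := add_right_comm _ _ _
    rw [hsw]
    by_cases h0 : f (β + e1 v + e1 w) = 0
    · rw [h0]; simp
    · apply hA
      right
      refine hc.down _ _ (hf _ h0).2 ?_
      intro x hx
      rw [mem_insert, mem_singleton] at hx
      rw [mem_union]
      left
      unfold supp
      rw [mem_filter]
      refine ⟨mem_univ _, ?_⟩
      rcases hx with rfl | rfl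
      · simp [e1]
      · simp [e1]
  have h3 : ∑ v, A v (∑ w, A w (f (β + e1 v + e1 w))) =
      ∑ v, ∑ w, A v (A w (f (β + e1 v + e1 w))) :=
    Finset.sum_congr rfl (fun v _ => map_sum _ _ _)
  have h4 : (2 : K) • (∑ v, ∑ w, A v (A w (f (β + e1 v + e1 w)))) = 0 := by
    rw [two_smul]
    nth_rewrite 2 [Finset.sum_comm]
    rw [← Finset.sum_add_distrib]
    refine Finset.sum_eq_zero (fun v _ => ?_)
    rw [← Finset.sum_add_distrib]
    refine Finset.sum_eq_zero (fun w _ => ?_)
    exact hT v w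
  rw [h3]
  exact (smul_eq_zero.1 h4).resolve_left h2

/-- the annihilation operators `b v` of the vertex part -/
theorem b_sq (v : V) (ω : Finset V → M) :
    iotM (K := K) (Pi.single v 1) (iotM (K := K) (Pi.single v 1) ω) = 0 := iotM_sq _ _

theorem b_b (v w : V) (ω : Finset V → M) :
    iotM (K := K) (Pi.single v 1) (iotM (K := K) (Pi.single w 1) ω) +
      iotM (K := K) (Pi.single w 1) (iotM (K := K) (Pi.single v 1) ω) = 0 := iotM_iotM _ _ _

theorem a_b (A : V → M →ₗ[K] M) (v w : V) (ω : Finset V → M) :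
    A3 A v (iotM (K := K) (Pi.single w 1) ω) + iotM (K := K) (Pi.single w 1) (A3 A v ω) =
      (if v = w then (1 : K) else 0) • ω := by
  have e4 := hatM_iotM (A v) (Pi.single w 1) ω
  have e8 := iotM_epsM (K := K) (Pi.single w 1) (Pi.single v 1) ω
  have e9 : (∑ j, (Pi.single w 1 : V → K) j * (Pi.single v 1 : V → K) j) =
      if v = w then (1 : K) else 0 := by
    rw [Finset.sum_eq_single w]
    · by_cases h : v = w
      · subst h; simp
      · rw [if_neg h, Pi.single_eq_of_ne (fun e => h e.symm), mul_zero]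
    · intro j _ hj
      rw [Pi.single_eq_of_ne hj, zero_mul]
    · intro h; exact absurd (mem_univ w) h
  rw [e9] at e8
  simp only [A3, LinearMap.add_apply, map_add]
  rw [← e8]
  have : ∀ (k1 k2 l1 l2 : Finset V → M), k1 + k2 = 0 → k1 + l1 + (k2 + l2) = l2 + l1 := by
    intro k1 k2 l1 l2 h
    have : k1 + l1 + (k2 + l2) = (k1 + k2) + (l2 + l1) := by abel
    rw [this, h, zero_add]
  exact this _ _ _ _ e4

end Pool.Agent.H53.GL
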