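import Pool.Agent.H53.GL.Defs

/-!
# helper53 GL module FULL: exactness in all degrees in odd rank

`d = 2 k + 1`, `i + j = d`, `j ≤ k < i`. With `r_l = finrank (map D L_l)` (the rank of `D : L_l → L_(l-1)`):
`finrank_map_dual` for `(i, j)` and `(i - 1, j + 1)`: `r_(i+1) = r_j`, `r_i = r_(j+1)`. `EX` in degree `j`:
`ker (D | L_j) = map D L_(j+1)`, so `dim L_j = r_j + r_(j+1)`. `dim L_i = dim L_j` (`finrank_LmU`,
`finrank_Lm_symm`). So `dim ker (D | L_i) = dim L_i - r_i = r_j = r_(i+1) = dim (map D L_(i+1))`, and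
`map D L_(i+1) ≤ ker (D | L_i)` as `D D = 0`. Degrees `i ≤ k`: `EX`; `i > d`: `Lm_top_zero`.
-/

namespace Pool.Agent.H53.GL

open Finset Module Pool.Agent.H53.CF

variable {V : Type*} [Fintype V] [LinearOrder V]
variable {K : Type*} [Field K] {U : Type*} [AddCommGroup U] [Module K U]
variable {Δ : Finset V → Prop} {d : ℕ} {u : V → Fin d → K}

/-- rank-nullity for the image of a submodule -/
private theorem full_rank_null {M N : Type*} [AddCommGroup M] [Module K M] [AddCommGroup N]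
    [Module K N] (f : M →ₗ[K] N) (p : Submodule K M) [Module.Finite K p] :
    finrank K (Submodule.map f p) + finrank K (p ⊓ LinearMap.ker f : Submodule K M) =
      finrank K p := by
  have h1 := LinearMap.finrank_range_add_finrank_ker (f.domRestrict p)
  rw [LinearMap.range_domRestrict] at h1
  rw [← h1]
  congr 1
  have h2 : (p ⊓ LinearMap.ker f : Submodule K M) =
      Submodule.map p.subtype (LinearMap.ker (f.domRestrict p)) := by
    ext x
    constructor
    · rintro ⟨hx, hx0⟩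
      exact ⟨⟨x, hx⟩, hx0, rfl⟩
    · rintro ⟨⟨y, hy⟩, hy0, rfl⟩
      exact ⟨hy, hy0⟩
  rw [h2]
  exact LinearEquiv.finrank_eq (Submodule.equivMapOfInjective _ p.subtype_injective _).symm

theorem full_exact [Module.Finite K U] (hS : HomSphere K Δ d) (hu : Lsop K Δ u)
    {F : (V → ℕ) → K} (hF : IsFund K Δ u F)
    {B : LinearMap.BilinForm K U} {A : V → U →ₗ[K] U} (hD : IsDirac Δ u B A) {k : ℕ}
    (hd : d = 2 * k + 1) (hEX : EX Δ u A ∅) :
    ∀ i, ∀ f ∈ Lm K U Δ u ∅ i, Dop K U A f = 0 →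
      ∃ g ∈ Lm K U Δ u ∅ (i + 1), Dop K U A g = f := by
  intro i f hf hDf
  have h0 := hS.cpx.empty
  rcases Nat.lt_or_ge k i with hki | hki
  swap
  · exact hEX i (by rw [card_empty]; omega) f hf hDf
  rcases Nat.lt_or_ge d i with hdi | hdi
  · refine ⟨0, Submodule.zero_mem _, ?_⟩
    rw [map_zero]
    exact (Lm_top_zero hS hu h0 (by rw [card_empty]; omega) hf).symm
  obtain ⟨j, hj⟩ : ∃ j, i + j = d := ⟨d - i, by omega⟩
  obtain ⟨i', rfl⟩ : ∃ i', i = i' + 1 := ⟨i - 1, by omega⟩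
  have hfini := finite_Lm (K := K) (W := U) (Δ := Δ) (u := u) ∅ (i' + 1)
  have hfinj := finite_Lm (K := K) (W := U) (Δ := Δ) (u := u) ∅ j
  have e1 := finrank_map_dual hS hu hF hD h0 (i := i' + 1) (j := j) (by rw [card_empty]; omega)
  have e2 := finrank_map_dual hS hu hF hD h0 (i := i') (j := j + 1) (by rw [card_empty]; omega)
  have e3 := full_rank_null (Dop K U A) (Lm K U Δ u ∅ j)
  have e4 := full_rank_null (Dop K U A) (Lm K U Δ u ∅ (i' + 1))
  have e5 : finrank K (Lm K U Δ u ∅ (i' + 1)) = finrank K (Lm K U Δ u ∅ j) := by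
    have h6 := finrank_LmU (U := U) (Δ := Δ) (u := u) (K := K) ∅ (i' + 1)
    have h7 := finrank_LmU (U := U) (Δ := Δ) (u := u) (K := K) ∅ j
    have h8 := finrank_Lm_symm hS hu hF h0 (i := i' + 1) (j := j) (by rw [card_empty]; omega)
    rw [h6, h7, h8]
  have e6 : (Lm K U Δ u ∅ j ⊓ LinearMap.ker (Dop K U A) : Submodule K ((V → ℕ) → U)) =
      Submodule.map (Dop K U A) (Lm K U Δ u ∅ (j + 1)) := by
    apply le_antisymm
    · rintro x ⟨hx, hx0⟩
      obtain ⟨g, hg, hgx⟩ := hEX j (by rw [card_empty]; omega) x hx hx0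
      exact ⟨g, hg, hgx⟩
    · rintro _ ⟨g, hg, rfl⟩
      exact ⟨Dop_mem_Lm hS.cpx A hg, hD.sq (j + 1) g hg⟩
  rw [e6] at e3
  have hle : Submodule.map (Dop K U A) (Lm K U Δ u ∅ (i' + 1 + 1)) ≤
      (Lm K U Δ u ∅ (i' + 1) ⊓ LinearMap.ker (Dop K U A) : Submodule K ((V → ℕ) → U)) := by
    rintro _ ⟨g, hg, rfl⟩
    exact ⟨Dop_mem_Lm hS.cpx A hg, hD.sq (i' + 1 + 1) g hg⟩
  have hfin : Module.Finite K
      (Lm K U Δ u ∅ (i' + 1) ⊓ LinearMap.ker (Dop K U A) : Submodule K ((V → ℕ) → U)) :=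
    Submodule.finiteDimensional_of_le inf_le_left
  have heq := Submodule.eq_of_le_of_finrank_eq hle (by omega)
  have hmem : f ∈ (Lm K U Δ u ∅ (i' + 1) ⊓ LinearMap.ker (Dop K U A) :
      Submodule K ((V → ℕ) → U)) := ⟨hf, hDf⟩
  rw [← heq] at hmem
  obtain ⟨g, hg, hgf⟩ := hmem
  exact ⟨g, hg, hgf⟩

end Pool.Agent.H53.GL
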