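import Pool.Agent.H53.GL.KozM

/-!
# helper53 GL module SM2: exactness on all functions from exactness on the stresses

`D2 = Dop (A2 A u p)`. Induction on `q`: every closed `f ∈ Sm i` with `f α S = 0` for `|S| > q` is in the image.
`q = 0`: `f α = f₀ α` at `S = ∅`, zero elsewhere; the components `S = {j}` of `D2 f = 0` say
`∑_v u v j • f₀ (β + e_v) = 0`, i.e. `f₀ ∈ Lm i`; the component `S = ∅` says `Dop A f₀ = 0` (the annihilation
part vanishes on degree `0`). So `f₀ = Dop A g₀`, `g₀ ∈ Lm (i + 1)`, and `D2 g = f` for `g` = `g₀` at `∅`.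
`q + 1`: let `f'` be the part of `f` in the sets with `q + 1` elements; the component of `D2 f` in the sets
with `q + 2` elements is `κ f' = 0`, so `f' = κ g`, `g` in the sets with `q` elements (`kozExM`), and
`f - D2 g` has no sets with more than `q` elements, and is closed (`Dop_Dop`, `anti_A2`).
-/

namespace Pool.Agent.H53.GL

open Finset Pool.Agent.H53.CF

variable {V : Type*} [Fintype V] [LinearOrder V] {K : Type*} [Field K]
variable {M : Type*} [AddCommGroup M] [Module K M] {d : ℕ}

private theorem sm2_A2_apply (A : V → M →ₗ[K] M) (u p : V → Fin d → K) (v : V)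
    (ω : Finset (Fin d) → M) (S : Finset (Fin d)) :
    A2 A u p v ω S = ((-1 : K) ^ S.card) • A v (ω S) +
      ∑ j ∈ S, ((sg j S : K) * u v j) • ω (S.erase j) -
      ∑ j ∈ Sᶜ, ((sg j S : K) * (2 * p v j)) • ω (insert j S) := rfl

private theorem sm2_Dop_apply (A : V → M →ₗ[K] M) (u p : V → Fin d → K)
    (f : (V → ℕ) → Finset (Fin d) → M) (β : V → ℕ) (S : Finset (Fin d)) :
    Dop K (Finset (Fin d) → M) (A2 A u p) f β S =
      ∑ v, (((-1 : K) ^ S.card) • A v (f (β + e1 v) S) +
      ∑ j ∈ S, ((sg j S : K) * u v j) • f (β + e1 v) (S.erase j) -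
      ∑ j ∈ Sᶜ, ((sg j S : K) * (2 * p v j)) • f (β + e1 v) (insert j S)) := by
  show (∑ v, A2 A u p v (f (β + e1 v))) S = _
  rw [Finset.sum_apply]
  rfl

private theorem sm2_kap_apply (u : V → Fin d → K)
    (f : (V → ℕ) → Finset (Fin d) → M) (β : V → ℕ) (S : Finset (Fin d)) :
    Dop K (Finset (Fin d) → M) (fun v => epsM (u v)) f β S =
      ∑ v, ∑ j ∈ S, ((sg j S : K) * u v j) • f (β + e1 v) (S.erase j) := by
  show (∑ v, epsM (u v) (f (β + e1 v))) S = _
  rw [Finset.sum_apply]
  rfl

/-- if `f` has no component in `S` and in the sets `insert j S`, the component `S` of `D2 f` is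
that of `κ f`. -/
private theorem sm2_top (A : V → M →ₗ[K] M) (u p : V → Fin d → K)
    (f : (V → ℕ) → Finset (Fin d) → M) (S : Finset (Fin d))
    (h0 : ∀ α, f α S = 0) (h1 : ∀ α, ∀ j ∈ Sᶜ, f α (insert j S) = 0) (β : V → ℕ) :
    Dop K (Finset (Fin d) → M) (A2 A u p) f β S =
      ∑ v, ∑ j ∈ S, ((sg j S : K) * u v j) • f (β + e1 v) (S.erase j) := by
  rw [sm2_Dop_apply]
  refine Finset.sum_congr rfl (fun v _ => ?_)
  rw [h0, map_zero, smul_zero, zero_add]
  have : ∑ j ∈ Sᶜ, ((sg j S : K) * (2 * p v j)) • f (β + e1 v) (insert j S) = 0 :=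
    Finset.sum_eq_zero (fun j hj => by rw [h1 _ j hj, smul_zero])
  rw [this, sub_zero]

private theorem sm2_zero {Δ : Finset V → Prop} {u p : V → Fin d → K} {A : V → M →ₗ[K] M}
    (hEx : ∀ i, ∀ f ∈ Lm K M Δ u ∅ i, Dop K M A f = 0 →
      ∃ g ∈ Lm K M Δ u ∅ (i + 1), Dop K M A g = f) (i : ℕ)
    (f : (V → ℕ) → Finset (Fin d) → M) (hf : f ∈ Sm K (Finset (Fin d) → M) Δ ∅ i)
    (hq : ∀ α S, f α S ≠ 0 → S.card ≤ 0)
    (hD : Dop K (Finset (Fin d) → M) (A2 A u p) f = 0) :
    ∃ g ∈ Sm K (Finset (Fin d) → M) Δ ∅ (i + 1),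
      Dop K (Finset (Fin d) → M) (A2 A u p) g = f := by
  have hne : ∀ α S, S ≠ ∅ → f α S = 0 := by
    intro α S hS
    by_contra h
    exact hS (Finset.card_eq_zero.1 (Nat.le_zero.1 (hq α S h)))
  -- the function `f₀`
  have hf0 : (fun α => f α ∅) ∈ Lm K M Δ u ∅ i := by
    refine ⟨fun α hα => hf α (fun h => hα (by simp only [h, Pi.zero_apply])), fun j β => ?_⟩
    have h1 := congrFun (congrFun hD β) {j}
    rw [sm2_top A u p f {j} (fun α => hne α _ (Finset.singleton_ne_empty j))
      (fun α k _ => hne α _ (Finset.insert_ne_empty k _)) β] at h1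
    rw [show ((0 : (V → ℕ) → Finset (Fin d) → M) β {j}) = 0 from rfl] at h1
    rw [← h1]
    refine Finset.sum_congr rfl (fun v _ => ?_)
    rw [Finset.sum_singleton]
    have : sg j ({j} : Finset (Fin d)) = 1 := by
      unfold sg
      rw [Finset.filter_singleton, if_neg (lt_irrefl j)]
      simp
    rw [this, Int.cast_one, one_mul, Finset.erase_singleton]
  have hD0 : Dop K M A (fun α => f α ∅) = 0 := by
    funext β
    have h1 := congrFun (congrFun hD β) ∅
    rw [sm2_Dop_apply] at h1
    rw [show ((0 : (V → ℕ) → Finset (Fin d) → M) β ∅) = 0 from rfl] at h1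
    show ∑ v, A v (f (β + e1 v) ∅) = 0
    rw [← h1]
    refine Finset.sum_congr rfl (fun v _ => ?_)
    rw [Finset.card_empty, pow_zero, one_smul, Finset.sum_empty, add_zero]
    have : ∑ j ∈ (∅ : Finset (Fin d))ᶜ, ((sg j (∅ : Finset (Fin d)) : K) * (2 * p v j)) •
        f (β + e1 v) (insert j ∅) = 0 :=
      Finset.sum_eq_zero (fun j _ => by rw [hne _ _ (Finset.insert_ne_empty j _), smul_zero])
    rw [this, sub_zero]
  obtain ⟨g0, hg0, hg1⟩ := hEx i _ hf0 hD0
  refine ⟨fun α S => if S = ∅ then g0 α else 0, ?_, ?_⟩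
  · intro α hα
    refine hg0.1 α (fun h => hα ?_)
    funext S
    simp only [h, ite_self, Pi.zero_apply]
  · funext β S
    rw [sm2_Dop_apply]
    have hi : ∀ v, ∑ j ∈ Sᶜ, ((sg j S : K) * (2 * p v j)) •
        (if insert j S = ∅ then g0 (β + e1 v) else 0) = 0 := fun v =>
      Finset.sum_eq_zero (fun j _ => by rw [if_neg (Finset.insert_ne_empty j _), smul_zero])
    by_cases hS : S = ∅
    · subst hS
      have h2 := congrFun hg1 β
      rw [← h2]
      show _ = ∑ v, A v (g0 (β + e1 v))
      refine Finset.sum_congr rfl (fun v _ => ?_)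
      simp only [hi v, Finset.card_empty, pow_zero, one_smul, Finset.sum_empty, add_zero,
        sub_zero, if_true]
    · rw [hne β S hS]
      have h3 : ∀ v, (((-1 : K) ^ S.card) • A v (if S = ∅ then g0 (β + e1 v) else 0) +
          ∑ j ∈ S, ((sg j S : K) * u v j) • (if S.erase j = ∅ then g0 (β + e1 v) else 0) -
          ∑ j ∈ Sᶜ, ((sg j S : K) * (2 * p v j)) •
            (if insert j S = ∅ then g0 (β + e1 v) else 0)) =
          ∑ j ∈ S, ((sg j S : K) * u v j) • (if S.erase j = ∅ then g0 (β + e1 v) else 0) := by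
        intro v
        rw [hi v, if_neg hS, map_zero, smul_zero, zero_add, sub_zero]
      rw [Finset.sum_congr rfl (fun v _ => h3 v), Finset.sum_comm]
      refine Finset.sum_eq_zero (fun j hj => ?_)
      by_cases he : S.erase j = ∅
      · simp only [if_pos he]
        have h4 := hg0.2 j β
        have h5 : ∀ v, ((sg j S : K) * u v j) • g0 (β + e1 v) =
            (sg j S : K) • (u v j • g0 (β + e1 v)) := fun v => mul_smul _ _ _
        rw [Finset.sum_congr rfl (fun v _ => h5 v), ← Finset.smul_sum, h4, smul_zero]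
      · simp only [if_neg he, smul_zero, Finset.sum_const_zero]

theorem smEx_A2 (h2 : (2 : K) ≠ 0) [Module.Finite K M] {Δ : Finset V → Prop}
    {u p : V → Fin d → K} (hS : HomSphere K Δ d) (hu : Lsop K Δ u) {A : V → M →ₗ[K] M}
    (hA : ∀ v w, (v = w ∨ Δ {v, w}) → ∀ x, A v (A w x) + A w (A v x) =
      (2 * ∑ j, (u v j * p w j + p v j * u w j)) • x)
    (hEx : ∀ i, ∀ f ∈ Lm K M Δ u ∅ i, Dop K M A f = 0 →
      ∃ g ∈ Lm K M Δ u ∅ (i + 1), Dop K M A g = f) :
    SmEx Δ (A2 A u p) := by
  have main : ∀ q : ℕ, ∀ i, ∀ f ∈ Sm K (Finset (Fin d) → M) Δ ∅ i,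
      (∀ α S, f α S ≠ 0 → S.card ≤ q) → Dop K (Finset (Fin d) → M) (A2 A u p) f = 0 →
      ∃ g ∈ Sm K (Finset (Fin d) → M) Δ ∅ (i + 1),
        Dop K (Finset (Fin d) → M) (A2 A u p) g = f := by
    intro q
    induction q with
    | zero => exact fun i f hf hq hD => sm2_zero hEx i f hf hq hD
    | succ q ih =>
      intro i f hf hq hD
      have hbig : ∀ α S, q + 1 < S.card → f α S = 0 := by
        intro α S hlt
        by_contra h
        exact absurd (hq α S h) (not_le.2 hlt)
      -- the top part
      let f' : (V → ℕ) → Finset (Fin d) → M := fun α S => if S.card = q + 1 then f α S else 0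
      have hf' : f' ∈ Sm K (Finset (Fin d) → M) Δ ∅ i := by
        intro α hα
        refine hf α (fun h => hα ?_)
        funext S
        simp only [f', h, Pi.zero_apply, ite_self]
      have hq' : ∀ α S, f' α S ≠ 0 → S.card = q + 1 := by
        intro α S h
        by_contra hc
        exact h (if_neg hc)
      have hk : Dop K (Finset (Fin d) → M) (fun v => epsM (u v)) f' = 0 := by
        funext β S
        rw [sm2_kap_apply]
        show _ = (0 : M)
        by_cases hc : S.card = q + 2
        · have h1 := congrFun (congrFun hD β) S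
          rw [sm2_top A u p f S (fun α => hbig α S (by omega))
            (fun α j hj => hbig α _ (by
              rw [Finset.card_insert_of_notMem (Finset.mem_compl.1 hj)]; omega)) β] at h1
          rw [show ((0 : (V → ℕ) → Finset (Fin d) → M) β S) = 0 from rfl] at h1
          rw [← h1]
          refine Finset.sum_congr rfl (fun v _ => Finset.sum_congr rfl (fun j hj => ?_))
          have h3 : (S.erase j).card = q + 1 := by
            rw [Finset.card_erase_of_mem hj]; omega
          simp only [f', if_pos h3]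
        · refine Finset.sum_eq_zero (fun v _ => Finset.sum_eq_zero (fun j hj => ?_))
          have h3 : ¬ (S.erase j).card = q + 1 := by
            rw [Finset.card_erase_of_mem hj]
            have : 0 < S.card := Finset.card_pos.2 ⟨j, hj⟩
            omega
          simp only [f', if_neg h3, smul_zero]
      obtain ⟨g, hg, hgq, hgk⟩ := kozExM hS hu hf' hq' hk
      have hcl : Dop K (Finset (Fin d) → M) (A2 A u p)
          (f - Dop K (Finset (Fin d) → M) (A2 A u p) g) = 0 := by
        rw [map_sub, hD, Dop_Dop h2 hS.cpx (anti_A2 hA) hg, sub_zero]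
      have hmem : f - Dop K (Finset (Fin d) → M) (A2 A u p) g ∈
          Sm K (Finset (Fin d) → M) Δ ∅ i :=
        Submodule.sub_mem _ hf (Dop_mem_Sm hS.cpx _ hg)
      have hg0 : ∀ α S, S.card ≠ q → g α S = 0 := by
        intro α S h
        by_contra hc
        exact h (hgq α S hc)
      have hle : ∀ α S, (f - Dop K (Finset (Fin d) → M) (A2 A u p) g) α S ≠ 0 → S.card ≤ q := by
        intro β S hne
        by_contra hc
        push Not at hc
        apply hne
        show f β S - Dop K (Finset (Fin d) → M) (A2 A u p) g β S = 0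
        rw [sm2_top A u p g S (fun α => hg0 α S (by omega))
          (fun α j hj => hg0 α _ (by
              rw [Finset.card_insert_of_notMem (Finset.mem_compl.1 hj)]; omega)) β,
          ← sm2_kap_apply, hgk]
        by_cases hc2 : S.card = q + 1
        · simp only [f', if_pos hc2, sub_self]
        · simp only [f', if_neg hc2, sub_zero]
          exact hbig β S (by omega)
      obtain ⟨g', hg', hg'D⟩ := ih i _ hmem hle hcl
      exact ⟨g + g', Submodule.add_mem _ hg hg', by rw [map_add, hg'D]; abel⟩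
  intro i f hf hD
  exact main d i f hf (fun α S _ => (Finset.card_le_univ S).trans (by rw [Fintype.card_fin])) hD

end Pool.Agent.H53.GL
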