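import Pool.Agent.H53.GL.FockM

/-!
# helper53 GL module SM3: adding the vertex part

`D3 = Dop (A3 A)`. Downward induction on `q` (or induction on `card V + 1 - q`): every closed `f ∈ Sm i` with
`f α S = 0` for `|S| < q` is in the image. If `q > card V`, `f = 0`. Otherwise let `f'` be the part of `f` in the
sets with `q` elements; the component of `D3 f` in these sets is `(-1)^q Dop A (f' · S) = 0` for each `S`, so
`f' · S = Dop A g_S` (`SmEx`), let `g α S = (-1)^q • g_S α` for `|S| = q`, `0` otherwise; `f - D3 g` is closed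
(`Dop_Dop`, `anti_A3`) and starts in degree `q + 1`.
-/

namespace Pool.Agent.H53.GL

open Finset Pool.Agent.H53.CF

variable {V : Type*} [Fintype V] [LinearOrder V] {K : Type*} [Field K]
variable {M : Type*} [AddCommGroup M] [Module K M]

private theorem A3_apply (A : V → M →ₗ[K] M) (v : V) (ω : Finset V → M) (S : Finset V)
    (h : ∀ j ∈ S, ω (S.erase j) = 0) : A3 A v ω S = ((-1 : K) ^ S.card) • A v (ω S) := by
  change ((-1 : K) ^ S.card) • A v (ω S) +
    ∑ j ∈ S, ((sg j S : K) * (Pi.single v 1 : V → K) j) • ω (S.erase j) = _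
  rw [Finset.sum_eq_zero, add_zero]
  intro j hj
  rw [h j hj, smul_zero]

private theorem D3_apply (A : V → M →ₗ[K] M) (f : (V → ℕ) → Finset V → M) (β : V → ℕ)
    (S : Finset V) (h : ∀ α, ∀ j ∈ S, f α (S.erase j) = 0) :
    Dop K (Finset V → M) (A3 A) f β S = ((-1 : K) ^ S.card) • Dop K M A (fun α => f α S) β := by
  change (∑ v, A3 A v (f (β + e1 v))) S = ((-1 : K) ^ S.card) • ∑ v, A v (f (β + e1 v) S)
  rw [Finset.sum_apply, Finset.smul_sum]
  apply Finset.sum_congr rfl
  intro v _
  exact A3_apply A v _ S (h _)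

private theorem step_A3 (h2 : (2 : K) ≠ 0) {Δ : Finset V → Prop} (hc : IsCpx Δ)
    {A : V → M →ₗ[K] M} (hA : Anti Δ A) (hEx : SmEx Δ A) (i : ℕ) (n : ℕ) :
    ∀ q : ℕ, q + n = Fintype.card V + 1 → ∀ f ∈ Sm K (Finset V → M) Δ ∅ i,
      Dop K (Finset V → M) (A3 A) f = 0 → (∀ α S, S.card < q → f α S = 0) →
      ∃ g ∈ Sm K (Finset V → M) Δ ∅ (i + 1), Dop K (Finset V → M) (A3 A) g = f := by
  induction n with
  | zero =>
    intro q hq f hf hD hz
    refine ⟨0, Submodule.zero_mem _, ?_⟩
    rw [map_zero]
    symm
    funext α S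
    have h1 : S.card ≤ Fintype.card V := Finset.card_le_univ S
    exact hz α S (by omega)
  | succ n ih =>
    intro q hq f hf hD hz
    have hex : ∀ S : Finset V, ∃ gS ∈ Sm K M Δ ∅ (i + 1),
        S.card = q → Dop K M A gS = fun α => f α S := by
      intro S
      by_cases hS : S.card = q
      · have h1 : (fun α => f α S) ∈ Sm K M Δ ∅ i := by
          intro α hα
          exact hf α (fun h => hα (congrFun h S))
        have h3 : Dop K M A (fun α => f α S) = 0 := by
          funext β
          have h4 := D3_apply A f β S (fun α j hj => hz α _ (by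
            rw [← hS]
            exact Finset.card_erase_lt_of_mem hj))
          rw [hD] at h4
          have h5 : (-1 : K) ^ S.card ≠ 0 := pow_ne_zero _ (neg_ne_zero.mpr one_ne_zero)
          have h6 : ((-1 : K) ^ S.card) • Dop K M A (fun α => f α S) β = 0 := h4.symm
          exact (smul_eq_zero.mp h6).resolve_left h5
        obtain ⟨g, hg, hg2⟩ := hEx i _ h1 h3
        exact ⟨g, hg, fun _ => hg2⟩
      · exact ⟨0, Submodule.zero_mem _, fun h => absurd h hS⟩
    choose gs hgs hgs2 using hex
    let g : (V → ℕ) → Finset V → M := fun α S =>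
      if S.card = q then ((-1 : K) ^ q) • gs S α else 0
    have hg : g ∈ Sm K (Finset V → M) Δ ∅ (i + 1) := by
      intro α hα
      obtain ⟨S, hS⟩ := Function.ne_iff.mp hα
      simp only [g] at hS
      split_ifs at hS with h1
      · exact hgs S α (fun h => hS (by rw [h, smul_zero]; rfl))
      · exact absurd rfl hS
    have hgS : ∀ S : Finset V, S.card ≤ q → ∀ β,
        Dop K (Finset V → M) (A3 A) g β S = f β S := by
      intro S hS β
      rw [D3_apply A g β S (fun α j hj => by
        simp only [g]
        rw [if_neg]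
        have := Finset.card_erase_lt_of_mem hj
        omega)]
      by_cases h1 : S.card = q
      · have h3 : (fun α => g α S) = ((-1 : K) ^ q) • gs S := by
          funext α
          simp only [g, Pi.smul_apply]
          rw [if_pos h1]
        rw [h3, map_smul, hgs2 S h1, Pi.smul_apply, smul_smul, h1, ← pow_add, ← two_mul,
          pow_mul]
        simp
      · have h3 : (fun α => g α S) = 0 := by
          funext α
          simp only [g, Pi.zero_apply]
          rw [if_neg h1]
        rw [h3, map_zero, Pi.zero_apply, smul_zero]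
        exact (hz β S (by omega)).symm
    obtain ⟨g', hg', hg'2⟩ := ih (q + 1) (by omega) (f - Dop K (Finset V → M) (A3 A) g)
      (Submodule.sub_mem _ hf (Dop_mem_Sm hc (A3 A) hg))
      (by rw [map_sub, hD, Dop_Dop h2 hc (anti_A3 hA) hg, sub_zero])
      (by
        intro α S hS
        rw [Pi.sub_apply, Pi.sub_apply, hgS S (by omega) α, sub_self])
    exact ⟨g + g', Submodule.add_mem _ hg hg', by rw [map_add, hg'2]; abel⟩

theorem smEx_A3 (h2 : (2 : K) ≠ 0) {Δ : Finset V → Prop} (hc : IsCpx Δ) {A : V → M →ₗ[K] M}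
    (hA : Anti Δ A) (hEx : SmEx Δ A) : SmEx Δ (A3 A) := by
  intro i f hf hD
  exact step_A3 h2 hc hA hEx i (Fintype.card V + 1) 0 (by omega) f hf hD
    (fun α S h => absurd h (Nat.not_lt_zero _))

end Pool.Agent.H53.GL
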