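import Pool.Agent.H53.GL.Defs

/-!
# helper53 GL module SMALL: from the face ring complex to the small complex

`Δ = Cl G E` (cliques contained in `E`). For `v ∈ E` let `P_v` act on functions `f : (V → ℕ) → U` by
`(P_v f) α = f α` if `α v = 0`, `a v (b v (f α))` if `α v = 1`, `0` if `α v ≥ 2`. On functions supported on the
monomials of `Δ` it commutes with `Mop Δ a`: the term `w` of `Mop (P_v f) α` and of `P_v (Mop f) α`:
if `w = v`: `α v = 1`: `a v (f (α - e_v))` and `a v (b v (a v (f (α - e_v)))) = a v (f (α - e_v))`;
`α v = 2`: `a v (a v (b v _)) = 0` and `0`; `α v ≥ 3`, `α v = 0`: both `0`;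
if `w ≠ v`, `α v ≥ 1`, `α w ≥ 1`, `supp α` a clique, so `v`, `w` are adjacent and `a w` commutes with
`a v ∘ b v` (two anticommutations). If `α v = 0` nothing happens.
`P` = the product of the `P_v` over `v ∈ E` (e.g. as a fold over `E.toList`, or the closed formula: on
squarefree `α` with support `s` the composite of the commuting `a v ∘ b v`, `v ∈ s`) maps `Sm i` to itself, commutes
with `Mop`, fixes the functions `x̂` of cochains `x` (`x̂ (ind s) = x s ∈ Cell a s` for simplices `s`, `0` at
other monomials; `a v (b v x) = x` if `a v x = 0`), and its values are again of this form: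
`a v (P f α) = 0` for `α v = 1`, `P f α = 0` for non squarefree `α`. `Mop x̂` is the function of `cob a x` if `x` is a
cochain (at `α` with `α v = 2`, rest squarefree, `a v (x s) = 0`).
Given a closed cochain `y` of degree `i`: if `i = 0`, `ŷ = 0` by `MuEx`. If `i = j + 1`: `ŷ = Mop g`,
`ŷ = P ŷ = Mop (P g)`, and `P g = x̂` for the cochain `x s = P g (ind s)`.
-/

namespace Pool.Agent.H53.GL

set_option linter.unusedSectionVars false

open Finset Pool.Agent.H53.CF Pool.Agent.H31.GS

section Proj

variable {V : Type} [Fintype V] [LinearOrder V] {U : Type} [AddCommGroup U] [Module ℝ U]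
  {G : SimpleGraph V} {E : Finset V} {a b : V → Module.End ℝ U}

private theorem small_cl_sub {s t : Finset V} (hs : Cl G E s) (h : t ⊆ s) : Cl G E t :=
  ⟨h.trans hs.1, hs.2.subset (by exact_mod_cast h)⟩

private theorem small_adj {s : Finset V} (hs : Cl G E s) {v w : V} (hv : v ∈ s) (hw : w ∈ s)
    (h : v ≠ w) : G.Adj v w := hs.2 (mem_coe.2 hv) (mem_coe.2 hw) h

/-- `a v ∘ b v` commutes with `a w` for adjacent `v`, `w` -/
private theorem small_comm_a (hs : GSys G E a b) {v w : V} (hv : v ∈ E) (hw : w ∈ E)
    (h : G.Adj v w) : Commute (a w) (a v * b v) := by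
  refine LinearMap.ext fun x => ?_
  change a w (a v (b v x)) = a v (b v (a w x))
  have h1 := hs.cab w hw v hv h.symm x
  have h2 := hs.caa v hv w hw h (b v x)
  rw [← neg_eq_iff_eq_neg.2 h1, map_neg, h2, neg_neg]

private theorem small_comm_b (hs : GSys G E a b) {v w : V} (hv : v ∈ E) (hw : w ∈ E)
    (h : G.Adj v w) : Commute (b w) (a v * b v) := by
  refine LinearMap.ext fun x => ?_
  change b w (a v (b v x)) = a v (b v (b w x))
  have h1 := hs.cab v hv w hw h (b v x)
  have h2 := hs.cbb v hv w hw h x
  rw [h2, map_neg, h1, neg_neg]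

private theorem small_pair (hs : GSys G E a b) {s : Finset V} (hc : Cl G E s) :
    (s : Set V).Pairwise (Function.onFun Commute (fun v => a v * b v)) := by
  intro v hv w hw hvw
  have hv' := mem_coe.1 hv
  have hw' := mem_coe.1 hw
  have h1 := small_adj hc hw' hv' hvw.symm
  exact (small_comm_a hs (hc.1 hw') (hc.1 hv') h1).mul_left
    (small_comm_b hs (hc.1 hw') (hc.1 hv') h1)

open Classical in
/-- the product of the projections `a v ∘ b v`, `v ∈ s` -/
private noncomputable def smallT (a b : V → Module.End ℝ U) (s : Finset V) : Module.End ℝ U :=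
  if h : (s : Set V).Pairwise (Function.onFun Commute (fun v => a v * b v)) then
    s.noncommProd (fun v => a v * b v) h else 0

private theorem smallT_empty : smallT a b (∅ : Finset V) = 1 := by
  unfold smallT
  rw [dif_pos (by simp)]
  exact Finset.noncommProd_empty _ _

private theorem smallT_insert (hs : GSys G E a b) {s : Finset V} {v : V} (hv : v ∉ s)
    (hc : Cl G E (insert v s)) : smallT a b (insert v s) = a v * b v * smallT a b s := by
  have h1 := small_pair hs hc
  have h2 := small_pair hs (small_cl_sub hc (subset_insert v s))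
  unfold smallT
  rw [dif_pos h1, dif_pos h2]
  exact Finset.noncommProd_insert_of_notMem _ _ _ h1 hv

private theorem smallT_insert' (hs : GSys G E a b) {s : Finset V} {v : V} (hv : v ∉ s)
    (hc : Cl G E (insert v s)) : smallT a b (insert v s) = smallT a b s * (a v * b v) := by
  have h1 := small_pair hs hc
  have h2 := small_pair hs (small_cl_sub hc (subset_insert v s))
  unfold smallT
  rw [dif_pos h1, dif_pos h2]
  exact Finset.noncommProd_insert_of_notMem' _ _ _ h1 hv

private theorem smallT_mem (hs : GSys G E a b) {s : Finset V} (hc : Cl G E s) (x : U) :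
    smallT a b s x ∈ Cell a s := by
  intro v hv
  have e : insert v (s.erase v) = s := insert_erase hv
  have h1 := smallT_insert hs (notMem_erase v s) (by rw [e]; exact hc)
  rw [e] at h1
  rw [h1]
  exact hs.aa v (hc.1 hv) _

private theorem smallT_of_mem (hs : GSys G E a b) {s : Finset V} (hc : Cl G E s) {x : U}
    (hx : x ∈ Cell a s) : smallT a b s x = x := by
  induction s using Finset.induction_on with
  | empty =>
    rw [smallT_empty]
    rfl
  | insert v s hv ih =>
    have h1 := ih (small_cl_sub hc (subset_insert v s)) (fun w hw => hx w (mem_insert_of_mem hw))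
    rw [smallT_insert hs hv hc]
    change a v (b v (smallT a b s x)) = x
    rw [h1]
    have h2 := hs.ab v (hc.1 (mem_insert_self v s)) x
    rw [hx v (mem_insert_self v s), map_zero, add_zero] at h2
    exact h2

private theorem smallT_comm (hs : GSys G E a b) {s : Finset V} {v : V} (hv : v ∉ s)
    (hc : Cl G E (insert v s)) (x : U) : smallT a b s (a v x) = a v (smallT a b s x) := by
  have h2 := small_pair hs (small_cl_sub hc (subset_insert v s))
  have h3 : Commute (a v) (smallT a b s) := by
    unfold smallT
    rw [dif_pos h2]
    refine Finset.noncommProd_commute _ _ _ _ fun w hw => ?_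
    exact small_comm_a hs (hc.1 (mem_insert_of_mem hw)) (hc.1 (mem_insert_self v s))
      (small_adj hc (mem_insert_of_mem hw) (mem_insert_self v s) (by
        rintro rfl
        exact hv hw))
  exact (LinearMap.congr_fun h3.eq x).symm

/-- the key identity -/
private theorem smallT_a (hs : GSys G E a b) {s : Finset V} {v : V} (hv : v ∈ s)
    (hc : Cl G E s) (x : U) : smallT a b s (a v x) = a v (smallT a b (s.erase v) x) := by
  have e : insert v (s.erase v) = s := insert_erase hv
  have hc' : Cl G E (insert v (s.erase v)) := by rw [e]; exact hc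
  have h1 := smallT_insert' hs (notMem_erase v s) hc'
  rw [e] at h1
  rw [h1, ← smallT_comm hs (notMem_erase v s) hc']
  change smallT a b (s.erase v) (a v (b v (a v x))) = _
  congr 1
  have h2 := hs.ab v (hc.1 hv) (a v x)
  rwa [hs.aa v (hc.1 hv), map_zero, add_zero] at h2

end Proj

section Mono

variable {V : Type} [Fintype V] [LinearOrder V]

private theorem small_supp_ind (s : Finset V) : supp (ind s) = s := by
  ext v
  simp [supp, ind]

private theorem small_ind_sub {s : Finset V} {v : V} (hv : v ∈ s) :
    ind s - e1 v = ind (s.erase v) := by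
  funext w
  simp only [Pi.sub_apply, ind, e1, mem_erase]
  by_cases h : w = v
  · subst h
    simp [hv]
  · simp [h]

private theorem small_sum_ind (s : Finset V) : ∑ v, ind s v = s.card := by
  simp [ind]

/-- if `α - e_v` is squarefree and `α` is not, then `v` is in the support of `α - e_v` -/
private theorem small_dich {α : V → ℕ} {v : V} (hv : α v ≠ 0)
    (h : α - e1 v = ind (supp (α - e1 v))) : α = ind (supp α) ∨ v ∈ supp (α - e1 v) := by
  by_cases h1 : v ∈ supp (α - e1 v)
  · exact Or.inr h1
  · left
    have h2 : α v = 1 := by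
      have h3 : (α - e1 v) v = 0 := by
        by_contra h4
        exact h1 (mem_filter.2 ⟨mem_univ v, h4⟩)
      simp only [Pi.sub_apply, e1, Pi.single_eq_same] at h3
      omega
    funext w
    by_cases hw : w = v
    · subst hw
      simp [ind, supp, h2]
    · have h3 := congrFun h w
      have h4 : (α - e1 v) w = α w := by simp [e1, hw]
      have h5 : ind (supp (α - e1 v)) w = ind (supp α) w := by
        simp only [ind, supp, mem_filter, mem_univ, true_and, h4]
      rw [h4, h5] at h3
      exact h3

end Mono

theorem exC_of_muEx {V : Type} [Fintype V] [LinearOrder V] {U : Type} [AddCommGroup U]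
    [Module ℝ U] {G : SimpleGraph V} {E : Finset V} {a b : V → Module.End ℝ U}
    (hs : GSys G E a b) (hEx : MuEx (Cl G E) a) : ∀ i, ExC G a E i := by
  classical
  intro i y hy hcl
  set Y : (V → ℕ) → U := fun α =>
    if α = ind (supp α) ∧ Cl G E (supp α) ∧ (supp α).card = i then y (supp α) else 0 with hY
  have hYv : ∀ s, Cl G E s → s.card = i → Y (ind s) = y s := by
    intro s h1 h2
    change (if ind s = ind (supp (ind s)) ∧ Cl G E (supp (ind s)) ∧ (supp (ind s)).card = i then
      y (supp (ind s)) else 0) = y s
    rw [small_supp_ind, if_pos ⟨rfl, h1, h2⟩]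
  have hY0 : ∀ s, s.card ≠ i → Y (ind s) = 0 := by
    intro s h1
    change (if ind s = ind (supp (ind s)) ∧ Cl G E (supp (ind s)) ∧ (supp (ind s)).card = i then
      y (supp (ind s)) else 0) = 0
    rw [small_supp_ind, if_neg (fun h => h1 h.2.2)]
  have hYS : Y ∈ Sm ℝ U (Cl G E) ∅ i := by
    intro α hα
    by_cases h : α = ind (supp α) ∧ Cl G E (supp α) ∧ (supp α).card = i
    · refine ⟨?_, ?_⟩
      · rw [h.1, small_sum_ind]
        exact h.2.2
      · rw [union_empty]
        exact h.2.1
    · exact absurd (if_neg h) hα
  have hMY : Mop (Cl G E) a Y = 0 := by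
    funext α
    unfold Mop
    by_cases hc : Cl G E (supp α)
    · rw [if_pos hc]
      by_cases hsq : α = ind (supp α)
      · -- squarefree monomials
        have h1 : ∀ v, (if α v ≠ 0 then a v (Y (α - e1 v)) else 0) =
            if v ∈ supp α then a v (Y (ind ((supp α).erase v))) else 0 := by
          intro v
          have h2 : (v ∈ supp α) ↔ α v ≠ 0 := by simp [supp]
          by_cases h3 : α v ≠ 0
          · rw [if_pos h3, if_pos (h2.2 h3), ← small_ind_sub (h2.2 h3), ← hsq]
          · rw [if_neg h3, if_neg (fun h => h3 (h2.1 h))]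
        rw [sum_congr rfl fun v _ => h1 v, ← sum_filter]
        have h4 : univ.filter (fun v => v ∈ supp α) = supp α := by
          ext v
          simp
        rw [h4]
        by_cases h5 : (supp α).card = i + 1
        · have h6 := hcl (supp α) hc h5
          unfold cob at h6
          rw [Pi.zero_apply, ← h6]
          refine sum_congr rfl fun v hv => ?_
          rw [hYv _ (small_cl_sub hc (erase_subset _ _)) (by rw [card_erase_of_mem hv, h5]; rfl)]
        · rw [Pi.zero_apply]
          refine sum_eq_zero fun v hv => ?_
          rw [hY0 _ (by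
            rw [card_erase_of_mem hv]
            have : 0 < (supp α).card := card_pos.2 ⟨v, hv⟩
            omega), map_zero]
      · rw [Pi.zero_apply]
        refine sum_eq_zero fun v _ => ?_
        by_cases h3 : α v ≠ 0
        · rw [if_pos h3]
          simp only [hY]
          by_cases h4 : α - e1 v = ind (supp (α - e1 v)) ∧ Cl G E (supp (α - e1 v)) ∧
              (supp (α - e1 v)).card = i
          · rw [if_pos h4]
            rcases small_dich h3 h4.1 with h5 | h5
            · exact absurd h5 hsq
            · exact hy _ h4.2.1 h4.2.2 v h5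
          · rw [if_neg h4, map_zero]
        · rw [if_neg h3]
    · rw [if_neg hc]
      rfl
  cases i with
  | zero =>
    have h0 := hEx.1 Y hYS hMY
    refine ⟨fun _ => 0, fun s _ _ => Submodule.zero_mem _, fun s hsc hs0 => ?_⟩
    rw [← hYv s hsc hs0, h0]
    unfold cob
    simp
  | succ j =>
    obtain ⟨g, -, hg⟩ := hEx.2 j Y hYS hMY
    refine ⟨fun s => smallT a b s (g (ind s)), fun s hsc _ => smallT_mem hs hsc _,
      fun s hsc hsj => ?_⟩
    have h1 : y s = ∑ v ∈ s, a v (g (ind (s.erase v))) := by
      rw [← hYv s hsc hsj, ← hg]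
      unfold Mop
      rw [small_supp_ind, if_pos hsc]
      have h2 : ∀ v, (if ind s v ≠ 0 then a v (g (ind s - e1 v)) else 0) =
          if v ∈ s then a v (g (ind (s.erase v))) else 0 := by
        intro v
        by_cases h3 : v ∈ s
        · rw [if_pos h3, if_pos (by simp [ind, h3]), small_ind_sub h3]
        · rw [if_neg h3, if_neg (by simp [ind, h3])]
      rw [sum_congr rfl fun v _ => h2 v, ← sum_filter]
      refine sum_congr ?_ fun _ _ => rfl
      ext v
      simp
    have h2 := smallT_of_mem hs hsc (hy s hsc hsj)
    rw [← h2, h1, map_sum]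
    unfold cob
    exact sum_congr rfl fun v hv => smallT_a hs hv hsc _

end Pool.Agent.H53.GL
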