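import Pool.Agent.H53.GL.ExD
import Pool.Agent.H53.GL.Full
import Pool.Agent.H53.GL.Sm2
import Pool.Agent.H53.GL.Sm3
import Pool.Agent.H53.GL.Dual
import Pool.Agent.H53.GL.Small

/-!
# helper53 GL module GLUE: odd spheres with a fan and `∑ y i ^ 2 = 0` carry an exact graded system

`Δ = Cl G E`, `d = 2 k + 1`. `M₁ = Finset (Fin N) → ℝ` with `A v = gam (y · v)`:
`A v (A w x) + A w (A v x) = (2 ∑ y i v y i w) • x` (`gam_gam`) `= (2 ∑_j (u v j p w j + p v j u w j)) • x`
for `v = w` and for edges (`Weights.sq`). `ex_of_weights` and `full_exact` (with `F` from `exists_fund` or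
`fund_pos`, `isDirac_cliff`) give exactness on all `Lm i`; `smEx_A2`, `anti_A2`, `smEx_A3`, `anti_A3` give `SmEx` for
`A' = A3 (A2 A u p)` on `M₃ = Finset V → Finset (Fin d) → M₁`; `muEx_dual` gives `MuEx` for
`a v = (A' v).dualMap` on `U = Module.Dual ℝ M₃`. `b v = (iotM (Pi.single v 1)).dualMap`; `GSys` from `anti_A3`, `b_b`,
`b_sq`, `a_b` (`Cl G E {v, w}` for adjacent `v, w ∈ E`, `v = w` for `a v ^ 2 = 0`: `2 • (a v (a v x)) = 0`).
`γ = (hatM V (hatM (Fin d) (hatM (Fin N) id))).dualMap` with `M₁ = Finset (Fin N) → ℝ`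
(`gam c = eps ℝ c + iot ℝ c` changes the parity). `exC_of_muEx`.
-/

namespace Pool.Agent.H53.GL

open Finset Pool.Agent.H53.CF Pool.Agent.H31.GS

/-- the grading operator of the Fock space of `Fin N` -/
noncomputable def par (N : ℕ) : (Finset (Fin N) → ℝ) →ₗ[ℝ] (Finset (Fin N) → ℝ) :=
  hatM (Fin N) (LinearMap.id : ℝ →ₗ[ℝ] ℝ)

theorem par_gam {N : ℕ} (c : Fin N → ℝ) (x : Finset (Fin N) → ℝ) :
    par N (gam c x) + gam c (par N x) = 0 := by
  have h : ∀ z : Finset (Fin N) → ℝ, gam c z = epsM (K := ℝ) c z + iotM (K := ℝ) c z := by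
    intro z
    funext S
    rw [gam_apply]
    simp only [Pi.add_apply]
    rfl
  rw [h, h]
  have h1 := hatM_epsM (LinearMap.id : ℝ →ₗ[ℝ] ℝ) c x
  have h2 := hatM_iotM (LinearMap.id : ℝ →ₗ[ℝ] ℝ) c x
  unfold par
  rw [map_add]
  calc _ = (hatM (Fin N) (LinearMap.id : ℝ →ₗ[ℝ] ℝ) (epsM c x) +
        epsM c (hatM (Fin N) (LinearMap.id : ℝ →ₗ[ℝ] ℝ) x)) +
        (hatM (Fin N) (LinearMap.id : ℝ →ₗ[ℝ] ℝ) (iotM c x) +
        iotM c (hatM (Fin N) (LinearMap.id : ℝ →ₗ[ℝ] ℝ) x)) := by abel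
    _ = 0 := by rw [h1, h2, add_zero]

theorem par_par {N : ℕ} (x : Finset (Fin N) → ℝ) : par N (par N x) = x := by
  funext S
  unfold par
  rw [hatM_hatM]
  rfl

private theorem hat_hat_anti {I : Type*} [Fintype I] [LinearOrder I] {M : Type*} [AddCommGroup M]
    [Module ℝ M] {A g : M →ₗ[ℝ] M} (h : ∀ x, g (A x) + A (g x) = 0) (x : Finset I → M) :
    hatM I g (hatM I A x) + hatM I A (hatM I g x) = 0 := by
  funext S
  rw [Pi.add_apply, hatM_hatM, hatM_hatM]
  exact h (x S)

/-- if `g` anticommutes with the `A v`, `hatM g` anticommutes with the `A2` -/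
theorem hat_A2 {V : Type*} {M : Type*} [AddCommGroup M] [Module ℝ M]
    {d : ℕ} {A : V → M →ₗ[ℝ] M} {g : M →ₗ[ℝ] M} (h : ∀ v x, g (A v x) + A v (g x) = 0)
    (u p : V → Fin d → ℝ) (v : V) (x : Finset (Fin d) → M) :
    hatM (Fin d) g (A2 A u p v x) + A2 A u p v (hatM (Fin d) g x) = 0 := by
  have h0 := hat_hat_anti (h v) x
  have h1 := hatM_epsM g (u v) x
  have h2 := hatM_iotM g (fun j => 2 * p v j) x
  unfold A2
  simp only [LinearMap.sub_apply, LinearMap.add_apply, map_sub, map_add]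
  calc _ = (hatM (Fin d) g (hatM (Fin d) (A v) x) + hatM (Fin d) (A v) (hatM (Fin d) g x)) +
        (hatM (Fin d) g (epsM (u v) x) + epsM (u v) (hatM (Fin d) g x)) -
        (hatM (Fin d) g (iotM (fun j => 2 * p v j) x) +
          iotM (fun j => 2 * p v j) (hatM (Fin d) g x)) := by abel
    _ = 0 := by rw [h0, h1, h2, add_zero, sub_zero]

theorem hat_A3 {V : Type*} [Fintype V] [LinearOrder V] {M : Type*} [AddCommGroup M] [Module ℝ M]
    {A : V → M →ₗ[ℝ] M} {g : M →ₗ[ℝ] M} (h : ∀ v x, g (A v x) + A v (g x) = 0)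
    (v : V) (x : Finset V → M) :
    hatM V g (A3 A v x) + A3 A v (hatM V g x) = 0 := by
  have h0 := hat_hat_anti (h v) x
  have h1 := hatM_epsM g (Pi.single v (1 : ℝ)) x
  unfold A3
  simp only [LinearMap.add_apply, map_add]
  calc _ = (hatM V g (hatM V (A v) x) + hatM V (A v) (hatM V g x)) +
        (hatM V g (epsM (Pi.single v (1 : ℝ)) x) +
          epsM (Pi.single v (1 : ℝ)) (hatM V g x)) := by abel
    _ = 0 := by rw [h0, h1, add_zero]

/-- the conclusion: an exact graded system with a grading -/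
def HasSys {V : Type} [Fintype V] [LinearOrder V] (G : SimpleGraph V) (E : Finset V) : Prop :=
  ∃ (U : Type) (_ : AddCommGroup U) (_ : Module ℝ U), Module.Finite ℝ U ∧ Nontrivial U ∧
    ∃ (a b : V → Module.End ℝ U) (γ : Module.End ℝ U), GSys G E a b ∧ (∀ x, γ (γ x) = x) ∧
      (∀ v ∈ E, ∀ x, γ (a v x) = - a v (γ x)) ∧ (∀ v ∈ E, ∀ x, γ (b v x) = - b v (γ x)) ∧
      ∀ i, ExC G a E i

private theorem hasSys_of_module {V : Type} [Fintype V] [LinearOrder V] {G : SimpleGraph V}
    {E : Finset V} {M : Type} [AddCommGroup M] [Module ℝ M] [Module.Finite ℝ M] [Nontrivial M]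
    {A B : V → M →ₗ[ℝ] M} {g : M →ₗ[ℝ] M} (hA : Anti (Cl G E) A)
    (bb : ∀ v x, B v (B v x) = 0) (bc : ∀ v w x, B v (B w x) + B w (B v x) = 0)
    (ab : ∀ v w x, A v (B w x) + B w (A v x) = (if v = w then (1 : ℝ) else 0) • x)
    (gg : ∀ x, g (g x) = x) (ga : ∀ v x, g (A v x) + A v (g x) = 0)
    (gb : ∀ v x, g (B v x) + B v (g x) = 0)
    (hmu : MuEx (Cl G E) (fun v => (A v).dualMap)) : HasSys G E := by
  have hcl : ∀ v ∈ E, ∀ w ∈ E, G.Adj v w → Cl G E {v, w} := by
    intro v hv w hw hvw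
    refine ⟨?_, ?_⟩
    · intro z hz
      simp only [Finset.mem_insert, Finset.mem_singleton] at hz
      rcases hz with rfl | rfl <;> assumption
    · rw [Finset.coe_insert, Finset.coe_singleton, SimpleGraph.isClique_pair]
      exact fun _ => hvw
  have hsys : GSys G E (fun v => ((A v).dualMap : Module.End ℝ (Module.Dual ℝ M)))
      (fun v => ((B v).dualMap : Module.End ℝ (Module.Dual ℝ M))) := by
    refine ⟨?_, ?_, ?_, ?_, ?_, ?_⟩
    · intro v _ φ
      refine LinearMap.ext (fun m => ?_)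
      change φ (A v (A v m)) = 0
      have h := hA v v (Or.inl rfl) m
      have h3 : (2 : ℝ) • A v (A v m) = 0 := by rw [two_smul]; exact h
      rcases smul_eq_zero.1 h3 with h4 | h4
      · norm_num at h4
      · rw [h4, map_zero]
    · intro v _ φ
      refine LinearMap.ext (fun m => ?_)
      change φ (B v (B v m)) = 0
      rw [bb, map_zero]
    · intro v _ φ
      refine LinearMap.ext (fun m => ?_)
      change φ (B v (A v m)) + φ (A v (B v m)) = φ m
      rw [← map_add, add_comm, ab, if_pos rfl, one_smul]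
    · intro v hv w hw hvw φ
      refine LinearMap.ext (fun m => ?_)
      change φ (A w (A v m)) = - φ (A v (A w m))
      have h := hA v w (Or.inr (hcl v hv w hw hvw)) m
      rw [eq_neg_iff_add_eq_zero, ← map_add, add_comm, h, map_zero]
    · intro v hv w hw hvw φ
      refine LinearMap.ext (fun m => ?_)
      change φ (B w (A v m)) = - φ (A v (B w m))
      rw [eq_neg_iff_add_eq_zero, ← map_add, add_comm, ab, if_neg (G.ne_of_adj hvw), zero_smul,
        map_zero]
    · intro v hv w hw hvw φ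
      refine LinearMap.ext (fun m => ?_)
      change φ (B w (B v m)) = - φ (B v (B w m))
      rw [eq_neg_iff_add_eq_zero, ← map_add, bc, map_zero]
  refine ⟨Module.Dual ℝ M, inferInstance, inferInstance, inferInstance, ?_,
    _, _, g.dualMap, hsys, ?_, ?_, ?_, ?_⟩
  · exact (Module.nontrivial_dual_iff ℝ).2 inferInstance
  · intro φ
    refine LinearMap.ext (fun m => ?_)
    change φ (g (g m)) = φ m
    rw [gg]
  · intro v _ φ
    refine LinearMap.ext (fun m => ?_)
    change φ (A v (g m)) = - φ (g (A v m))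
    rw [eq_neg_iff_add_eq_zero, ← map_add, add_comm, ga, map_zero]
  · intro v _ φ
    refine LinearMap.ext (fun m => ?_)
    change φ (B v (g m)) = - φ (g (B v m))
    rw [eq_neg_iff_add_eq_zero, ← map_add, add_comm, gb, map_zero]
  · exact exC_of_muEx hsys hmu

theorem hasSys_of_fan {V : Type} [Fintype V] [LinearOrder V] {G : SimpleGraph V} {E : Finset V}
    {k N : ℕ} {u : V → Fin (2 * k + 1) → ℝ} {y : Fin N → V → ℝ} {p : V → Fin (2 * k + 1) → ℝ}
    (hS : HomSphere ℝ (Cl G E) (2 * k + 1)) (hfan : CompleteFan (Cl G E) u)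
    (hW : Weights (Cl G E) u y p) : HasSys G E := by
  have hu : Lsop ℝ (Cl G E) u := lsop_of_fan hS.cpx hfan
  obtain ⟨F, hF, -⟩ := fund_pos hS hfan
  have hD := isDirac_cliff (N := N) hS.cpx hW.sq
  have h2 : (2 : ℝ) ≠ 0 := two_ne_zero
  have hA : ∀ v w, (v = w ∨ Cl G E {v, w}) → ∀ x : Finset (Fin N) → ℝ,
      gam (fun i => y i v) (gam (fun i => y i w) x) + gam (fun i => y i w) (gam (fun i => y i v) x) =
      (2 * ∑ j, (u v j * p w j + p v j * u w j)) • x := by
    intro v w hvw x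
    rw [← hW.sq v w hvw]
    exact gam_gam _ _ x
  have hEX := ex_of_weights hS hfan hW ∅ hS.cpx.empty
  have hfull := full_exact hS hu hF hD rfl hEX
  have hanti2 : Anti (Cl G E) (A2 (fun v => gam (fun i => y i v)) u p) := anti_A2 hA
  have hsm2 : SmEx (Cl G E) (A2 (fun v => gam (fun i => y i v)) u p) := smEx_A2 h2 hS hu hA hfull
  have hsm3 := smEx_A3 h2 hS.cpx hanti2 hsm2
  have hanti3 := anti_A3 hanti2
  have hmu := muEx_dual hS.cpx hsm3
  exact hasSys_of_module (B := fun v => iotM (K := ℝ) (Pi.single v 1))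
    (g := hatM V (hatM (Fin (2 * k + 1)) (par N))) hanti3 (fun v x => b_sq v x)
    (fun v w x => b_b v w x) (fun v w x => a_b _ v w x)
    (fun x => by
      funext S
      rw [hatM_hatM]
      funext T
      rw [hatM_hatM, par_par])
    (fun v x => hat_A3 (fun v x => hat_A2 (fun v x => par_gam _ x) u p v x) v x)
    (fun v x => hatM_iotM _ _ x) hmu

end Pool.Agent.H53.GL
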