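import Pool.Agent.H53.GL.FockM

/-!
# helper53 GL module KOZM: Koszul exactness with values in a module

Choose a basis of `M` (finite-dimensional) and apply `kozEx` of `H53/CF/CM.lean` (with `ρ = η = ∅`) to the
coordinates.
-/

namespace Pool.Agent.H53.GL

open Finset Pool.Agent.H53.CF

variable {V : Type*} [Fintype V] [LinearOrder V] {K : Type*} [Field K]
variable {M : Type*} [AddCommGroup M] [Module K M] {d : ℕ}

/-- coordinates of a creation operator -/
private theorem kozm_coord (φ : M →ₗ[K] K) (a : Fin d → K) (ω : Finset (Fin d) → M)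
    (S : Finset (Fin d)) :
    φ (epsM a ω S) = eps K a (fun T => φ (ω T)) S := by
  change φ (∑ j ∈ S, ((sg j S : K) * a j) • ω (S.erase j)) =
    ∑ j ∈ S, (sg j S : K) * a j * φ (ω (S.erase j))
  rw [map_sum]
  exact Finset.sum_congr rfl (fun j _ => by rw [map_smul, smul_eq_mul])

private theorem kozm_dop (φ : M →ₗ[K] K) (u : V → Fin d → K) (f : (V → ℕ) → Finset (Fin d) → M)
    (β : V → ℕ) (S : Finset (Fin d)) :
    φ (Dop K (Finset (Fin d) → M) (fun v => epsM (u v)) f β S) =
      kap K u (fun α T => φ (f α T)) β S := by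
  change φ ((∑ v, epsM (u v) (f (β + e1 v))) S) =
    (∑ v, eps K (u v) (fun T => φ (f (β + e1 v) T))) S
  rw [Finset.sum_apply, Finset.sum_apply, map_sum]
  exact Finset.sum_congr rfl (fun v _ => kozm_coord φ (u v) _ S)

theorem kozExM [Module.Finite K M] {Δ : Finset V → Prop} {u : V → Fin d → K}
    (hS : HomSphere K Δ d) (hu : Lsop K Δ u) {q i : ℕ}
    {f : (V → ℕ) → Finset (Fin d) → M} (hf : f ∈ Sm K (Finset (Fin d) → M) Δ ∅ i)
    (hq : ∀ α S, f α S ≠ 0 → S.card = q + 1)
    (hk : Dop K (Finset (Fin d) → M) (fun v => epsM (u v)) f = 0) :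
    ∃ g ∈ Sm K (Finset (Fin d) → M) Δ ∅ (i + 1), (∀ α S, g α S ≠ 0 → S.card = q) ∧
      Dop K (Finset (Fin d) → M) (fun v => epsM (u v)) g = f := by
  obtain ⟨b⟩ : Nonempty (Module.Basis (Fin (Module.finrank K M)) K M) := ⟨Module.finBasis K M⟩
  have hΔ : Δ ∅ := hS.cpx.1
  have hex := kozEx hS hu hΔ (Finset.Subset.refl (∅ : Finset V))
  have hstep : ∀ k, ∃ g ∈ Kz K Δ u ∅ ∅ q (i + 1), kap K u g = fun α T => b.coord k (f α T) := by
    intro k
    have h1 : (fun α T => b.coord k (f α T)) ∈ Kz K Δ u ∅ ∅ (q + 1) i := by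
      refine ⟨?_, ?_, ?_⟩
      · intro α hα
        apply hf α
        intro h0
        apply hα
        funext T
        change b.coord k (f α T) = 0
        rw [h0]
        exact map_zero _
      · intro α S hS'
        apply hq α S
        intro h0
        apply hS'
        change b.coord k (f α S) = 0
        rw [h0]
        exact map_zero _
      · intro v hv
        exact absurd hv (Finset.notMem_empty v)
    have h2 : kap K u (fun α T => b.coord k (f α T)) = 0 := by
      funext β S
      rw [← kozm_dop, hk]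
      simp
    obtain ⟨g, hg, hgk⟩ := hex (q + 1) i _ (by simp) h1 h2
    exact ⟨g, by simpa using hg, hgk⟩
  choose g hg hgk using hstep
  refine ⟨fun α S => ∑ k, g k α S • b k, ?_, ?_, ?_⟩
  · intro α hα
    obtain ⟨S, hS'⟩ : ∃ S, (∑ k, g k α S • b k) ≠ 0 := by
      by_contra hcon
      push Not at hcon
      exact hα (funext hcon)
    obtain ⟨k, -, hk'⟩ := Finset.exists_ne_zero_of_sum_ne_zero hS'
    apply (hg k).1 α
    intro h0
    apply hk'
    rw [h0]
    simp
  · intro α S hS'
    obtain ⟨k, -, hk'⟩ := Finset.exists_ne_zero_of_sum_ne_zero hS'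
    apply (hg k).2.1 α S
    intro h0
    apply hk'
    rw [h0]
    simp
  · funext β S
    apply b.ext_elem
    intro k
    have h1 := kozm_dop (b.coord k) u (fun α S => ∑ k, g k α S • b k) β S
    have h2 : (fun α T => b.coord k (∑ k, g k α T • b k)) = g k := by
      funext α T
      simp [map_sum, Finsupp.single_apply]
    rw [h2, hgk k] at h1
    exact h1

end Pool.Agent.H53.GL
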